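import Mathlib
import Pool.Agent.HP27.GD.CubeSet
import Pool.Agent.HP27.GD.Mixed

set_option autoImplicit false

/-!
# All multiples of some number are differences of two distances which occur often between consecutive cubes

The question asks for many pairs of consecutive primes with difference `6` between `n ^ 3` and `(n + 1) ^ 3`, for all `n`.
A number `d` is called good at the scale `x` with the constant `κ` if there are at least `x ^ 2 / (log x) ^ B` pairs of
consecutive primes `p`, `p + d` between `n ^ 3` and `(n + 1) ^ 3` for at least `κ x` of the numbers `n ≤ x`; moreover `p` and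
`p + d` are the only primes between `p - P` and `p + d + P`. Here it is shown that there is an `M` (which depends on `P` and on
a given sequence of scales) such that EVERY multiple `h > 0` of `M` is the difference of two such numbers `d` and
`d + h`, which are good at the same scale; in fact every long interval contains a positive proportion of such numbers `d`.
More generally every equation `A d - b d' = h`, with `h` any nonzero multiple (positive or negative) of some `M = M(A, b)`, has
many such solutions, and for any `a_1, ..., a_m` there are arbitrarily large `d` with all the `a_i d` good at a common scale.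

Proof. By the coloured Maynard-Tao theorem with spread sets (`Pool.Agent.N694.SP`, in the starting files) there is among
any four classes of numbers always a good difference between two of them. The rest is the argument of
`MP_49610d_nt.EveryMultipleIsADifference`, which holds for all sets with this property.
-/

namespace Pool.Agent.Results.MP_5628fe_nt.AllMultiplesAreDifferences

open Filter

/-- The number of the `p`, `n ^ 3 < p < p + d < (n + 1) ^ 3`, such that `p` and `p + d` are primes, and there are no other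
primes between `p - P` and `p + d + P`. -/
noncomputable def pairs (P d n : ℕ) : ℕ :=
  {p : ℕ | (p.Prime ∧ (p + d).Prime ∧ ∀ m : ℕ, m.Prime → p < m + P → m < p + d + P → m = p ∨ m = p + d) ∧
    n ^ 3 < p ∧ p + d < (n + 1) ^ 3}.ncard

/-- For at least `κ x` of the `n ≤ x` there are at least `x ^ 2 / (log x) ^ B` such pairs. -/
def Good (B P : ℕ) (κ : ℝ) (x d : ℕ) : Prop :=
  κ * x ≤ ({n : ℕ | n ≤ x ∧ (x : ℝ) ^ 2 / Real.log x ^ B ≤ (pairs P d n : ℝ)}.ncard : ℝ)

/-- **All multiples of `M` are differences of two good numbers.** For every sequence of scales `X s → ∞`: (1) There is `M` such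
that for every multiple `h > 0` of `M` there are `c > 0` and `T₀` such that for every `U` there is `κ > 0` such that for
infinitely many `s` every interval `(u, u + T]` with `T ≥ T₀`, `u + T ≤ U`, contains at least `c T` numbers `d` for which
`d` and `d + h` are both good at the scale `X s` with the constant `κ`. (2) For all `A, b ≥ 1` there is `M > 0` such that for
every integer `h ≠ 0` divisible by `M` there is `c > 0` such that for infinitely many `Y` there is `κ > 0` such that for infinitely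
many `s` there are at least `c Y` pairs `(d, d')` of numbers up to `Y`, both good at the scale `X s` with the constant
`κ`, with `A d - b d' = h`. (3) For every finite set `F` of positive integers there are arbitrarily large `d` such that for some
`κ > 0` and infinitely many `s` all the `a d`, `a ∈ F`, are good at the scale `X s` with the constant `κ`. -/
theorem result : ∃ B : ℕ, ∀ P : ℕ, 0 < P → 6 ∣ P → ∀ X : ℕ → ℕ, Tendsto X atTop atTop →
    (∃ M : ℕ, 0 < M ∧ ∀ h : ℕ, 0 < h → M ∣ h → ∃ (c : ℝ) (T₀ : ℕ), 0 < c ∧ ∀ U : ℕ, ∃ κ : ℝ, 0 < κ ∧ ∃ᶠ s in atTop,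
      ∀ T : ℕ, T₀ ≤ T → ∀ u : ℕ, u + T ≤ U → c * T ≤ ({d : ℕ | u < d ∧ d ≤ u + T ∧
        Good B P κ (X s) d ∧ Good B P κ (X s) (d + h)}.ncard : ℝ)) ∧
    (∀ A b : ℕ, 0 < A → 0 < b → ∃ M : ℕ, 0 < M ∧ ∀ h : ℤ, h ≠ 0 → (M : ℤ) ∣ h → ∃ c : ℝ, 0 < c ∧
      ∃ᶠ Y : ℕ in atTop, ∃ κ : ℝ, 0 < κ ∧ ∃ᶠ s in atTop, c * Y ≤ ({p : ℕ × ℕ | p.1 ≤ Y ∧ p.2 ≤ Y ∧
        Good B P κ (X s) p.1 ∧ Good B P κ (X s) p.2 ∧ (A : ℤ) * p.1 - b * p.2 = h}.ncard : ℝ)) ∧
    (∀ F : Finset ℕ, (∀ a ∈ F, 0 < a) → ∀ R : ℕ, ∃ d, R < d ∧ ∃ κ : ℝ, 0 < κ ∧ ∃ᶠ s in atTop, ∀ a ∈ F,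
      Good B P κ (X s) (a * d)) := by
  classical
  obtain ⟨K, B, hK, hG⟩ := Pool.Agent.HP27.GD.cubeset
  refine ⟨B, fun P hP h6 X hX => ?_⟩
  obtain ⟨G, hGF, h4⟩ := hG P hP h6 X hX
  refine ⟨?_, ?_, ?_⟩
  rotate_left
  · intro A b hA hb
    obtain ⟨M, hM, hmix⟩ := Pool.Agent.HP27.GD.mixed (Nat.factorial_pos _) h4 hP hA hb
    refine ⟨M, hM, fun h hh hd => ?_⟩
    obtain ⟨c, hc, hfr⟩ := hmix h hh hd
    refine ⟨c, hc, hfr.mono fun Y hY => ?_⟩
    obtain ⟨κ, hκ, hs⟩ := hGF ((Finset.range (Y + 1)).filter (fun k => k ∈ G)) (fun k hk => (Finset.mem_filter.1 hk).2)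
    refine ⟨κ, hκ, hs.mono fun s hs => hY.trans ?_⟩
    have key : ∀ g' : ℕ, g' ∈ Pool.Agent.HP27.GD.mul P G → g' ≤ Y → Good B P κ (X s) g' := by
      rintro g' ⟨k, hk, rfl⟩ hle
      have h1 : k ≤ P * k := Nat.le_mul_of_pos_left k hP
      exact hs k (Finset.mem_filter.2 ⟨Finset.mem_range.2 (by omega), hk⟩)
    rw [Nat.cast_le]
    apply Set.ncard_le_ncard
    · rintro p ⟨⟨h1, h2, h3⟩, ⟨h5, h6, h7⟩, h8⟩
      exact ⟨h2, h6, key _ h3 h2, key _ h7 h6, h8⟩
    · exact ((Set.finite_Iic Y).prod (Set.finite_Iic Y)).subset fun p hp => ⟨hp.1, hp.2.1⟩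
  · intro F hF R
    obtain ⟨x, hx, hxG⟩ := Pool.Agent.HP27.GD.dilates (Nat.factorial_pos _) h4 F hF R
    obtain ⟨κ, hκ, hs⟩ := hGF (F.image fun a => a * x) (fun k hk => by
      obtain ⟨a, ha, rfl⟩ := Finset.mem_image.1 hk
      exact hxG a ha)
    refine ⟨P * x, hx.trans_le (Nat.le_mul_of_pos_left x hP), κ, hκ, hs.mono fun s hs a ha => ?_⟩
    have h1 := hs (a * x) (Finset.mem_image_of_mem _ ha)
    have e : P * (a * x) = a * (P * x) := by ring
    rw [e] at h1
    exact h1
  obtain ⟨M, hM, hdiff⟩ := Pool.Agent.HP27.GD.mul_diffs hK (Nat.factorial_pos _) hP h4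
  refine ⟨M, hM, fun h hh hd => ?_⟩
  obtain ⟨c, hc, T₀, hT₀⟩ := hdiff h hh hd
  refine ⟨c, T₀, hc, fun U => ?_⟩
  obtain ⟨κ, hκ, hs⟩ := hGF ((Finset.range (U + h + 1)).filter (fun k => k ∈ G)) (fun k hk => (Finset.mem_filter.1 hk).2)
  refine ⟨κ, hκ, hs.mono ?_⟩
  intro s hs T hT u hu
  refine (hT₀ T hT u).trans ?_
  rw [Nat.cast_le]
  unfold Pool.Agent.HP27.GD.rr
  rw [← Set.ncard_coe_finset]
  apply Set.ncard_le_ncard
  · intro g hg
    rw [Finset.mem_coe, Finset.mem_filter, Finset.mem_Ioc] at hg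
    obtain ⟨⟨hg1, hg2⟩, hg3, hg4⟩ := hg
    have key : ∀ g' : ℕ, g' ∈ Pool.Agent.HP27.GD.mul P G → g' ≤ U + h → Good B P κ (X s) g' := by
      rintro g' ⟨k, hk, rfl⟩ hle
      have h1 : k ≤ P * k := Nat.le_mul_of_pos_left k hP
      exact hs k (Finset.mem_filter.2 ⟨Finset.mem_range.2 (by omega), hk⟩)
    exact ⟨hg1, hg2, key g hg3 (by omega), key (g + h) hg4 (by omega)⟩
  · exact (Set.finite_Iic (u + T)).subset fun g hg => hg.2.1

end Pool.Agent.Results.MP_5628fe_nt.AllMultiplesAreDifferences
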