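import Mathlib
import Pool.Agent.HP27.GD.CubeSet

set_option autoImplicit false

/-!
# Binary linear forms in differences of consecutive primes between consecutive cubes

The question asks for many pairs of consecutive primes with difference `6` between `n ^ 3` and `(n + 1) ^ 3`, for all `n`.
A number `d` is called good at the scale `x` with the constant `κ` if there are at least `x ^ 2 / (log x) ^ B` pairs of
consecutive primes `p`, `p + d` between `n ^ 3` and `(n + 1) ^ 3` for at least `κ x` of the numbers `n ≤ x`; moreover `p` and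
`p + d` are the only primes between `p - P` and `p + d + P`. In `DifferencesBetweenCubes` it was shown that every large
multiple of `6 P` is a sum of exactly three such numbers. Here it is shown that ALMOST ALL the multiples of highly divisible
numbers are sums, and differences, of TWO such numbers, in many ways, and the same for all linear forms `α d₁ + β d₂` and
`α d₁ - β d₂`, `α, β ≥ 1`:

let `X_s → ∞` be a sequence of scales. There is an `M` such that for every multiple `N` of `M` and all
`α, β ≥ 1` almost all `k`, in the sense of the Banach density, have the following property: for every `δ > 0` and every long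
interval `I` all but `δ |I|` of the `k` in `I` are such that the number `N α β k` is
`α d₁ + β d₂` with multiples `d₁, d₂` of `N` which are good at the same scale `X_s`, for at least `c(δ) k` pairs
`(d₁, d₂)`, where `c(δ) > 0` depends on `δ` only; and it is `α d₁ - β d₂` for at least `c(δ) Y` such pairs with
`d₂ ≤ N α Y`, for every `Y` which is larger than twice the elements of `I`. Here `s` can be taken arbitrarily large, and the
same for all the intervals and all the `Y` below any given bound; the constant `κ` depends on this bound.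

Proof. By the coloured Maynard-Tao theorem with spread sets (`Pool.Agent.N694.SP`, in the starting files) there is among
any four classes of numbers always a good difference between two of them. The rest is the combinatorial argument
of `MP_49610d_nt.BinaryFormsInGaps`: the set `D` of the `x` for which `N x` is good has lower Banach density at least `1/2`,
and if a positive proportion of the numbers have few representations then `D` is almost
invariant under all multiples of some `m`; if this happens for two numbers `N₁ | N₂` there are four classes without a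
good difference between two of them.
-/

namespace Pool.Agent.Results.MP_5628fe_nt.BinaryFormsBetweenCubes

open Filter

/-- The number of the `p`, `n ^ 3 < p < p + d < (n + 1) ^ 3`, such that `p` and `p + d` are primes, and there are no other
primes between `p - P` and `p + d + P`. -/
noncomputable def pairs (P d n : ℕ) : ℕ :=
  {p : ℕ | (p.Prime ∧ (p + d).Prime ∧ ∀ m : ℕ, m.Prime → p < m + P → m < p + d + P → m = p ∨ m = p + d) ∧
    n ^ 3 < p ∧ p + d < (n + 1) ^ 3}.ncard

/-- For at least `κ x` of the `n ≤ x` there are at least `x ^ 2 / (log x) ^ B` such pairs. -/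
def Good (B P : ℕ) (κ : ℝ) (x d : ℕ) : Prop :=
  κ * x ≤ ({n : ℕ | n ≤ x ∧ (x : ℝ) ^ 2 / Real.log x ^ B ≤ (pairs P d n : ℝ)}.ncard : ℝ)

/-- The number of the pairs of positive multiples `d₁, d₂` of `N`, both good at the scale `x`, with `α d₁ + β d₂ = n`. -/
noncomputable def sumReps (B P : ℕ) (κ : ℝ) (x N α β n : ℕ) : ℕ :=
  {d : ℕ × ℕ | (0 < d.1 ∧ N ∣ d.1 ∧ Good B P κ x d.1) ∧ (0 < d.2 ∧ N ∣ d.2 ∧ Good B P κ x d.2) ∧
    α * d.1 + β * d.2 = n}.ncard

/-- The number of the pairs of positive multiples `d₁, d₂` of `N`, both good at the scale `x`, with `d₂ ≤ Y` and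
`α d₁ - β d₂ = n`. -/
noncomputable def diffReps (B P : ℕ) (κ : ℝ) (x N α β Y n : ℕ) : ℕ :=
  {d : ℕ × ℕ | (0 < d.1 ∧ N ∣ d.1 ∧ Good B P κ x d.1) ∧ (0 < d.2 ∧ N ∣ d.2 ∧ Good B P κ x d.2) ∧
    d.2 ≤ Y ∧ α * d.1 = β * d.2 + n}.ncard

/-- **Binary linear forms in differences of consecutive primes between consecutive cubes.** -/
theorem result : ∃ (B : ℕ) (c : ℝ → ℝ), (∀ δ, 0 < δ → 0 < c δ) ∧ ∀ P : ℕ, 0 < P → 6 ∣ P →
    ∀ X : ℕ → ℕ, Tendsto X atTop atTop → ∃ M : ℕ, 0 < M ∧ ∀ N : ℕ, 0 < N → M ∣ N → ∀ α β : ℕ, 0 < α → 0 < β →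
      ∀ δ : ℝ, 0 < δ → ∃ T₀ : ℕ, ∀ U : ℕ, ∃ κ : ℝ, 0 < κ ∧ ∃ᶠ s in atTop, ∀ T : ℕ, T₀ ≤ T → ∀ u : ℕ, u + T ≤ U →
        (1 - δ) * T ≤ ({k : ℕ | u < k ∧ k ≤ u + T ∧
          c δ * k ≤ sumReps B P κ (X s) N α β (N * α * β * k)}.ncard : ℝ) ∧
        ∀ Y : ℕ, 2 * (u + T) ≤ Y → Y ≤ U →
          (1 - δ) * T ≤ ({k : ℕ | u < k ∧ k ≤ u + T ∧
            c δ * Y ≤ diffReps B P κ (X s) N α β (N * α * Y) (N * α * β * k)}.ncard : ℝ) := by
  classical
  obtain ⟨B, c₀, hc₀, hB⟩ := Pool.Agent.HP27.GD.cubes2'
  refine ⟨B, c₀, hc₀, fun P hP h6 X hX => ?_⟩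
  obtain ⟨G, hG, M, hM, h⟩ := hB P hP h6 X hX
  refine ⟨P * M, Nat.mul_pos hP hM, fun N hN hd α β hα hβ δ hδ => ?_⟩
  obtain ⟨j, rfl⟩ := hd
  have hj : 0 < M * j := by
    rcases Nat.eq_zero_or_pos (M * j) with h0 | h0
    · rw [mul_assoc, h0] at hN
      omega
    · exact h0
  obtain ⟨T₀, hT₀⟩ := h (M * j) hj (dvd_mul_right M j) α β hα hβ δ hδ
  refine ⟨T₀, fun U => ?_⟩
  obtain ⟨W, hW⟩ : ∃ W : ℕ, W = M * j * (α + β) * (2 * U) := ⟨_, rfl⟩
  obtain ⟨κ, hκ, hGF⟩ := hG ((Finset.range (W + 1)).filter (fun k => k ∈ G)) (fun k hk => (Finset.mem_filter.1 hk).2)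
  refine ⟨κ, hκ, hGF.mono ?_⟩
  intro s hs T hT u hu
  have hfr : ∀ k, k ∈ G → k ≤ W → Good B P κ (X s) (P * k) := fun k hk hkW =>
    hs k (Finset.mem_filter.2 ⟨Finset.mem_range.2 (by omega), hk⟩)
  have hWα : ∀ x, x ≤ 2 * U → M * j * α * x ≤ W := by
    intro x hx
    rw [hW]
    exact Nat.mul_le_mul (Nat.mul_le_mul_left _ (by omega)) hx
  have hWβ : ∀ x, x ≤ 2 * U → M * j * β * x ≤ W := by
    intro x hx
    rw [hW]
    exact Nat.mul_le_mul (Nat.mul_le_mul_left _ (by omega)) hx
  have hPMj : 0 < P * M * j := by rw [mul_assoc]; exact Nat.mul_pos hP hj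
  obtain ⟨h1, h2⟩ := hT₀ T hT u
  refine ⟨(Pool.Agent.HP27.TG.good_card h1).trans ?_, fun Y hY hYU =>
    (Pool.Agent.HP27.TG.good_card (h2 Y hY)).trans ?_⟩
  · rw [Nat.cast_le]
    apply Set.ncard_le_ncard
    · rintro k ⟨hk1, hk2, hk3⟩
      refine ⟨hk1, hk2, ?_⟩
      rw [not_lt] at hk3
      refine hk3.trans ?_
      rw [Nat.cast_le]
      unfold Pool.Agent.HP27.TG.rep sumReps
      rw [← Set.ncard_coe_finset]
      refine Set.ncard_le_ncard_of_injOn (fun x => (P * M * j * β * x, P * M * j * α * (k - x))) ?_ ?_ ?_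
      · intro x hx
        rw [Finset.mem_coe, Finset.mem_filter, Finset.mem_Ioo] at hx
        obtain ⟨⟨hx0, hxk⟩, hx1, hx2⟩ := hx
        refine ⟨⟨Nat.mul_pos (Nat.mul_pos hPMj hβ) hx0, ?_, ?_⟩,
          ⟨Nat.mul_pos (Nat.mul_pos hPMj hα) (by omega), ?_, ?_⟩, ?_⟩
        · exact ⟨β * x, mul_assoc _ _ _⟩
        · have h3 := hfr _ hx1 (hWβ x (by omega))
          have e : P * (M * j * β * x) = P * M * j * β * x := by ring
          rwa [e] at h3
        · exact ⟨α * (k - x), mul_assoc _ _ _⟩
        · have h3 := hfr _ hx2 (hWα (k - x) (by omega))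
          have e : P * (M * j * α * (k - x)) = P * M * j * α * (k - x) := by ring
          rwa [e] at h3
        · show α * (P * M * j * β * x) + β * (P * M * j * α * (k - x)) = P * M * j * α * β * k
          have e : k = x + (k - x) := by omega
          calc α * (P * M * j * β * x) + β * (P * M * j * α * (k - x)) =
              P * M * j * α * β * (x + (k - x)) := by ring
            _ = _ := by rw [← e]
      · intro x _ y _ hxy
        have h3 : P * M * j * β * x = P * M * j * β * y := congrArg Prod.fst hxy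
        exact Nat.eq_of_mul_eq_mul_left (Nat.mul_pos hPMj hβ) h3
      · refine ((Set.finite_Iic (P * M * j * α * β * k)).prod (Set.finite_Iic (P * M * j * α * β * k))).subset ?_
        rintro ⟨g₁, g₂⟩ ⟨-, -, hg⟩
        have hg' : α * g₁ + β * g₂ = P * M * j * α * β * k := hg
        have h3 : g₁ ≤ α * g₁ := Nat.le_mul_of_pos_left _ hα
        have h4 : g₂ ≤ β * g₂ := Nat.le_mul_of_pos_left _ hβ
        exact ⟨by rw [Set.mem_Iic]; show g₁ ≤ _; omega, by rw [Set.mem_Iic]; show g₂ ≤ _; omega⟩
    · exact (Set.finite_Iic (u + T)).subset fun k hk => hk.2.1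
  · rw [Nat.cast_le]
    apply Set.ncard_le_ncard
    · rintro k ⟨hk1, hk2, hk3⟩
      refine ⟨hk1, hk2, ?_⟩
      rw [not_lt] at hk3
      refine hk3.trans ?_
      rw [Nat.cast_le]
      unfold Pool.Agent.HP27.TG.repd diffReps
      rw [← Set.ncard_coe_finset]
      refine Set.ncard_le_ncard_of_injOn (fun x => (P * M * j * β * (x + k), P * M * j * α * x)) ?_ ?_ ?_
      · intro x hx
        rw [Finset.mem_coe, Finset.mem_filter, Finset.mem_Ioc] at hx
        obtain ⟨⟨hx0, hxk⟩, hx1, hx2⟩ := hx
        refine ⟨⟨Nat.mul_pos (Nat.mul_pos hPMj hβ) (by omega), ?_, ?_⟩,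
          ⟨Nat.mul_pos (Nat.mul_pos hPMj hα) hx0, ?_, ?_⟩, ?_, ?_⟩
        · exact ⟨β * (x + k), mul_assoc _ _ _⟩
        · have h3 := hfr _ hx2 (hWβ (x + k) (by omega))
          have e : P * (M * j * β * (x + k)) = P * M * j * β * (x + k) := by ring
          rwa [e] at h3
        · exact ⟨α * x, mul_assoc _ _ _⟩
        · have h3 := hfr _ hx1 (hWα x (by omega))
          have e : P * (M * j * α * x) = P * M * j * α * x := by ring
          rwa [e] at h3
        · exact Nat.mul_le_mul_left _ hxk
        · show α * (P * M * j * β * (x + k)) = β * (P * M * j * α * x) + P * M * j * α * β * k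
          ring
      · intro x _ y _ hxy
        have h3 : P * M * j * α * x = P * M * j * α * y := congrArg Prod.snd hxy
        exact Nat.eq_of_mul_eq_mul_left (Nat.mul_pos hPMj hα) h3
      · refine ((Set.finite_Iic (β * (P * M * j * α * Y) + P * M * j * α * β * k)).prod
          (Set.finite_Iic (P * M * j * α * Y))).subset ?_
        rintro ⟨g₁, g₂⟩ ⟨-, -, hg2, hg⟩
        have hg' : α * g₁ = β * g₂ + P * M * j * α * β * k := hg
        have hg2' : g₂ ≤ P * M * j * α * Y := hg2
        have h3 : g₁ ≤ α * g₁ := Nat.le_mul_of_pos_left _ hα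
        have h4 : β * g₂ ≤ β * (P * M * j * α * Y) := Nat.mul_le_mul_left _ hg2'
        exact ⟨by rw [Set.mem_Iic]; show g₁ ≤ _; omega, hg2'⟩
    · exact (Set.finite_Iic (u + T)).subset fun k hk => hk.2.1

end Pool.Agent.Results.MP_5628fe_nt.BinaryFormsBetweenCubes
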