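import Mathlib
import Pool.Agent.HP27.S3.Prop

set_option autoImplicit false

/-!
# Pairs of consecutive primes with given differences between a positive proportion of the consecutive cubes

The question asks for many pairs of consecutive primes with difference `6` between `n ^ 3` and `(n + 1) ^ 3`, for all `n`.
A number `d` is called good at the scale `N` (with the constant `c`) if there are at least `N ^ 2 / (log N) ^ B` pairs of
consecutive primes `p`, `p + d` between `n ^ 3` and `(n + 1) ^ 3` for at least `c N` of the numbers `n ≤ N`; moreover `p` and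
`p + d` are the only primes between `p - P` and `p + d + P`. Here it is shown that

(1) every multiple `h` of `6 P` is `d₁ + d₂ - d₃` with large multiples `d₁, d₂, d₃ ≤ M` of `P` which are good at
the scale `N`, for EVERY large `N`; `M` and `c > 0` depend on `h` only;
(2) for every sequence of scales every large multiple of `6 P` is a sum of exactly three (and of exactly `m`, for every
`m ≥ 3`) such numbers `d`, which are good at the same scale, for infinitely many of the scales.

Proof. By the coloured Maynard-Tao theorem with spread sets (`Pool.Agent.N694.SP`, in the starting files) there is among four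
classes of numbers always a good difference between two of them: the set of the `p` is spread, that is, it
has at most the expected number of elements in every interval of length `x ^ (1/2)`, so that a positive proportion of the
intervals between the cubes up to `x` must contain the expected number of them. The rest is the
combinatorial argument of our `MP_49610d_nt.SumsOfThreeGaps` (helper40) and `MP_49610d_nt.SumsOfExactlyThreeGaps`, with
constants tending to zero.
-/

namespace Pool.Agent.Results.MP_5628fe_nt.DifferencesBetweenCubes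

open Filter

/-- The number of the `p`, `n ^ 3 < p < p + d < (n + 1) ^ 3`, such that `p` and `p + d` are primes, and there are no other
primes between `p - P` and `p + d + P`. -/
noncomputable def pairs (P d n : ℕ) : ℕ :=
  {p : ℕ | (p.Prime ∧ (p + d).Prime ∧ ∀ m : ℕ, m.Prime → p < m + P → m < p + d + P → m = p ∨ m = p + d) ∧
    n ^ 3 < p ∧ p + d < (n + 1) ^ 3}.ncard

/-- For at least `c N` of the `n ≤ N` there are at least `N ^ 2 / (log N) ^ B` such pairs. -/
def Good (B P : ℕ) (c : ℝ) (d N : ℕ) : Prop :=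
  c * N ≤ ({n : ℕ | n ≤ N ∧ (N : ℝ) ^ 2 / Real.log N ^ B ≤ (pairs P d n : ℝ)}.ncard : ℝ)

/-- **Differences of consecutive primes between consecutive cubes.** -/
theorem result : ∃ B : ℕ, ∀ P : ℕ, 0 < P → 6 ∣ P →
    (∀ h : ℤ, ((6 * P : ℕ) : ℤ) ∣ h → ∀ G : ℕ, ∃ (c : ℝ) (M : ℕ), 0 < c ∧ ∀ N : ℕ, M ≤ N → ∃ d₁ d₂ d₃ : ℕ,
      (G < d₁ ∧ G < d₂ ∧ G < d₃) ∧ (d₁ ≤ M ∧ d₂ ≤ M ∧ d₃ ≤ M) ∧ (P ∣ d₁ ∧ P ∣ d₂ ∧ P ∣ d₃) ∧ h = d₁ + d₂ - d₃ ∧
      Good B P c d₁ N ∧ Good B P c d₂ N ∧ Good B P c d₃ N) ∧
    (∀ X : ℕ → ℕ, Tendsto X atTop atTop → ∀ m : ℕ, 3 ≤ m → ∀ G : ℕ, ∃ H : ℕ, ∀ h : ℕ, H ≤ h → 6 * P ∣ h →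
      ∃ (c : ℝ) (d : Fin m → ℕ), 0 < c ∧ (∀ i, G < d i ∧ P ∣ d i) ∧ ∑ i, d i = h ∧
        ∃ᶠ s in atTop, ∀ i, Good B P c (d i) (X s)) := by
  obtain ⟨B, hB⟩ := Pool.Agent.HP27.S3.propA
  obtain ⟨B', hB'⟩ := Pool.Agent.HP27.S3.propB
  -- a common exponent
  have hmono : ∀ (B₁ B₂ P d N : ℕ) (c : ℝ), B₁ ≤ B₂ → 3 ≤ N → Pool.Agent.HP27.S3.RichP B₁ P c d N → Good B₂ P c d N := by
    intro B₁ B₂ P d N c hBB hN hR
    have hN3 : (3 : ℝ) ≤ N := by exact_mod_cast hN
    have hlog : 1 ≤ Real.log N := by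
      rw [Real.le_log_iff_exp_le (by linarith)]
      have := Real.exp_one_lt_d9
      linarith
    refine le_trans hR ?_
    rw [Nat.cast_le]
    apply Set.ncard_le_ncard
    · rintro n ⟨hn1, hn2⟩
      refine ⟨hn1, le_trans ?_ hn2⟩
      exact div_le_div_of_nonneg_left (by positivity) (by positivity) (pow_le_pow_right₀ hlog hBB)
    · exact (Set.finite_Iic N).subset fun n hn => hn.1
  refine ⟨max B B', fun P hP h6 => ⟨fun h hh G => ?_, fun X hX m hm G => ?_⟩⟩
  · obtain ⟨c, M, hc, hM⟩ := hB P hP h6 h hh G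
    refine ⟨c, M + 3, hc, fun N hN => ?_⟩
    obtain ⟨d₁, d₂, d₃, a1, a2, a3, a4, a5, a6, a7⟩ := hM N (by omega)
    exact ⟨d₁, d₂, d₃, a1, ⟨by omega, by omega, by omega⟩, a3, a4, hmono _ _ _ _ _ _ (le_max_left _ _) (by omega) a5,
      hmono _ _ _ _ _ _ (le_max_left _ _) (by omega) a6, hmono _ _ _ _ _ _ (le_max_left _ _) (by omega) a7⟩
  · obtain ⟨H, hH⟩ := hB' P hP h6 X hX m hm G
    refine ⟨H, fun h hh hd => ?_⟩
    obtain ⟨c, d, hc, h1, h2, h3⟩ := hH h hh hd
    refine ⟨c, d, hc, h1, h2, ?_⟩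
    exact (h3.and_eventually (hX.eventually_ge_atTop 3)).mono fun s hs i =>
      hmono _ _ _ _ _ _ (le_max_right _ _) hs.2 (hs.1 i)

end Pool.Agent.Results.MP_5628fe_nt.DifferencesBetweenCubes
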