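import Mathlib
import Pool.Agent.HP27.GD.CubeSet

set_option autoImplicit false

/-!
# At least one half of the multiples occur often as differences of consecutive primes between consecutive cubes

The question asks for many pairs of consecutive primes with difference `6` between `n ^ 3` and `(n + 1) ^ 3`, for all `n`.
A number `d` is called good at the scale `x` with the constant `κ` if there are at least `x ^ 2 / (log x) ^ B` pairs of
consecutive primes `p`, `p + d` between `n ^ 3` and `(n + 1) ^ 3` for at least `κ x` of the numbers `n ≤ x`; moreover `p` and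
`p + d` are the only primes between `p - P` and `p + d + P`. For a sequence of scales `X_s` let us say that the share of the
multiples of `N` is at least `t` if for every `ε > 0` in every long interval at least a proportion `t - ε` of the numbers `k`
are such that `N k` is good at the scale `X_s` (for infinitely many `s`, the same for all intervals up to any given bound, and
with a `κ` which depends on this bound). It is shown that there are absolute numbers `B` and `L` such that

(1) (duality) for every `t > 1/3` the share is at least `t` for ALL multiples `N` of `P L`, or it is at least `1 - t - ε` for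
all sufficiently divisible `N`, for every `ε > 0`;
(2) the share is at least `1/2` for ALL multiples `N` of `P L`, or there is `β > 0` such that it is at least `1/2 + β` for all
sufficiently divisible `N`; in particular it is at least `1/2` for all multiples `N` of some number `M`.

Proof. By the coloured Maynard-Tao theorem with spread sets (`Pool.Agent.N694.SP`, in the starting files) there is among
any four classes of numbers always a good difference between two of them. If the share is less than `t` for one `N` and less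
than `1 - t` for arbitrarily divisible numbers then there are four classes without good differences: this is proved by the
method of the starting files (`Pool.Agent.W25.TF`: almost periodic approximation and Combinatorial Nullstellensatz; there one
has `t = 1/2` and only sufficiently divisible `N`), with Dyson's constant term identity for unequal exponents.
-/

namespace Pool.Agent.Results.MP_5628fe_nt.HalfOfTheMultiples

open Filter

/-- The number of the `p`, `n ^ 3 < p < p + d < (n + 1) ^ 3`, such that `p` and `p + d` are primes, and there are no other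
primes between `p - P` and `p + d + P`. -/
noncomputable def pairs (P d n : ℕ) : ℕ :=
  {p : ℕ | (p.Prime ∧ (p + d).Prime ∧ ∀ m : ℕ, m.Prime → p < m + P → m < p + d + P → m = p ∨ m = p + d) ∧
    n ^ 3 < p ∧ p + d < (n + 1) ^ 3}.ncard

/-- For at least `κ x` of the `n ≤ x` there are at least `x ^ 2 / (log x) ^ B` such pairs. -/
def Good (B P : ℕ) (κ : ℝ) (x d : ℕ) : Prop :=
  κ * x ≤ ({n : ℕ | n ≤ x ∧ (x : ℝ) ^ 2 / Real.log x ^ B ≤ (pairs P d n : ℝ)}.ncard : ℝ)

/-- The share of the multiples of `N` which are good at the scales `X` is at least `t`. -/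
def Share (B P : ℕ) (X : ℕ → ℕ) (t : ℝ) (N : ℕ) : Prop := ∀ ε : ℝ, 0 < ε → ∃ T₀ : ℕ, ∀ U : ℕ, ∃ κ : ℝ, 0 < κ ∧
  ∃ᶠ s in atTop, ∀ T : ℕ, T₀ ≤ T → ∀ u : ℕ, u + T ≤ U →
    (t - ε) * T ≤ ({k : ℕ | u < k ∧ k ≤ u + T ∧ Good B P κ (X s) (N * k)}.ncard : ℝ)

/-- **Shares of multiples: duality.** -/
theorem result : ∃ B L : ℕ, 0 < L ∧ ∀ P : ℕ, 0 < P → 6 ∣ P → ∀ X : ℕ → ℕ, Tendsto X atTop atTop →
    (∀ t : ℝ, 1 / 3 < t → t ≤ 1 → (∀ N : ℕ, 0 < N → P * L ∣ N → Share B P X t N) ∨
      ∀ ε : ℝ, 0 < ε → ∃ M : ℕ, 0 < M ∧ ∀ N : ℕ, 0 < N → M ∣ N → Share B P X (1 - t - ε) N) ∧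
    ((∀ N : ℕ, 0 < N → P * L ∣ N → Share B P X (1 / 2) N) ∨
      ∃ β : ℝ, 0 < β ∧ ∃ M : ℕ, 0 < M ∧ ∀ N : ℕ, 0 < N → M ∣ N → Share B P X (1 / 2 + β) N) ∧
    (∃ M : ℕ, 0 < M ∧ ∀ N : ℕ, 0 < N → M ∣ N → Share B P X (1 / 2) N) := by
  classical
  obtain ⟨K, B, hK, hG⟩ := Pool.Agent.HP27.GD.cubeset
  refine ⟨B, (4 * K).factorial, Nat.factorial_pos _, fun P hP h6 X hX => ?_⟩
  obtain ⟨G, hGF, h4⟩ := hG P hP h6 X hX
  have hL : 0 < (4 * K).factorial := Nat.factorial_pos _
  -- from the set `G` to the good numbers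
  have tr : ∀ (N : ℕ) (t : ℝ), 0 < N → (∀ ε : ℝ, 0 < ε → ∃ L₀ : ℕ, ∀ T : ℕ, L₀ ≤ T → ∀ u : ℕ,
      (t - ε) * T ≤ (Pool.Agent.HP27.TG.cnt (Pool.Agent.HP27.TG.dil N G) u T : ℝ)) → Share B P X t (P * N) := by
    intro N t hN h ε hε
    obtain ⟨T₀, hT₀⟩ := h ε hε
    refine ⟨T₀, fun U => ?_⟩
    obtain ⟨κ, hκ, hs⟩ := hGF ((Finset.range (N * U + 1)).filter (fun k => k ∈ G)) (fun k hk => (Finset.mem_filter.1 hk).2)
    refine ⟨κ, hκ, hs.mono ?_⟩
    intro s hs T hT u hu
    refine (hT₀ T hT u).trans ?_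
    rw [Nat.cast_le]
    unfold Pool.Agent.HP27.TG.cnt
    rw [← Set.ncard_coe_finset]
    apply Set.ncard_le_ncard
    · intro k hk
      rw [Finset.mem_coe, Finset.mem_filter, Finset.mem_Ioc] at hk
      obtain ⟨⟨hk1, hk2⟩, hk3⟩ := hk
      refine ⟨hk1, hk2, ?_⟩
      have h1 : N * k ≤ N * U := Nat.mul_le_mul_left N (by omega)
      have h2 := hs (N * k) (Finset.mem_filter.2 ⟨Finset.mem_range.2 (by omega), hk3⟩)
      rw [mul_assoc]
      exact h2
    · exact (Set.finite_Iic (u + T)).subset fun k hk => hk.2.1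
  have quot : ∀ Q N : ℕ, 0 < N → Q ∣ N → ∃ j, 0 < j ∧ N = Q * j := by
    intro Q N hN hd
    obtain ⟨j, rfl⟩ := hd
    exact ⟨j, Nat.pos_of_ne_zero (by rintro rfl; simp at hN), rfl⟩
  have weak : ∀ (N : ℕ) (t : ℝ), (∃ L₀ : ℕ, ∀ T : ℕ, L₀ ≤ T → ∀ u : ℕ,
      t * T ≤ (Pool.Agent.HP27.TG.cnt (Pool.Agent.HP27.TG.dil N G) u T : ℝ)) → ∀ ε : ℝ, 0 < ε → ∃ L₀ : ℕ, ∀ T : ℕ,
      L₀ ≤ T → ∀ u : ℕ, (t - ε) * T ≤ (Pool.Agent.HP27.TG.cnt (Pool.Agent.HP27.TG.dil N G) u T : ℝ) := by
    rintro N t ⟨L₀, h⟩ ε hε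
    refine ⟨L₀, fun T hT u => le_trans ?_ (h T hT u)⟩
    exact mul_le_mul_of_nonneg_right (by linarith) (Nat.cast_nonneg T)
  refine ⟨fun t ht ht1 => ?_, ?_, ?_⟩
  · rcases Pool.Agent.HP27.GD.dual hL h4 ht ht1 with h | h
    · left
      intro N hN hd
      obtain ⟨j, hj, rfl⟩ := quot _ _ hN hd
      rw [mul_assoc]
      exact tr _ t (Nat.mul_pos hL hj) (h j hj)
    · right
      intro ε hε
      obtain ⟨M, hM, h⟩ := h ε hε
      refine ⟨P * M, Nat.mul_pos hP hM, fun N hN hd => ?_⟩
      obtain ⟨j, hj, rfl⟩ := quot _ _ hN hd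
      rw [mul_assoc]
      exact tr _ _ (Nat.mul_pos hM hj) (weak _ _ (h _ (Nat.mul_pos hM hj) (dvd_mul_right M j)))
  · rcases Pool.Agent.HP27.GD.dichotomy hL h4 with h | ⟨β, hβ, M, hM, h⟩
    · left
      intro N hN hd
      obtain ⟨j, hj, rfl⟩ := quot _ _ hN hd
      rw [mul_assoc]
      exact tr _ _ (Nat.mul_pos hL hj) (h j hj)
    · right
      refine ⟨β, hβ, P * M, Nat.mul_pos hP hM, fun N hN hd => ?_⟩
      obtain ⟨j, hj, rfl⟩ := quot _ _ hN hd
      rw [mul_assoc]
      exact tr _ _ (Nat.mul_pos hM hj) (weak _ _ (h _ (Nat.mul_pos hM hj) (dvd_mul_right M j)))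
  · obtain ⟨M, hM, h⟩ := Pool.Agent.HP27.GD.exact_half hL h4
    refine ⟨P * M, Nat.mul_pos hP hM, fun N hN hd => ?_⟩
    obtain ⟨j, hj, rfl⟩ := quot _ _ hN hd
    rw [mul_assoc]
    exact tr _ _ (Nat.mul_pos hM hj) (h _ (Nat.mul_pos hM hj) (dvd_mul_right M j))

end Pool.Agent.Results.MP_5628fe_nt.HalfOfTheMultiples
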